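import Pool.Agent.H8.AV3.Stmts

/-! # Three-descent over `F(t)`: module CSP -/

set_option autoImplicit false

namespace Pool.Agent.H11.AV3

open Polynomial Matrix Pool.AVR Pool.AV3

/-- A coefficient of a form in `Vd n d` with negative degree bound vanishes. -/
theorem csp_zero {F : Type} [Field F] {n : ℕ} {d : Fin 3 → ℤ} {c : Fin 10 → F[X]}
    (hc : c ∈ Vd n d) (i : Fin 10) (hi : (n : ℤ) + ∑ s, d (tr i s) - ∑ j, d j < 0) : c i = 0 := by
  by_contra h
  have h1 := hc i h
  have h2 : (0 : ℤ) ≤ ((c i).natDegree : ℤ) := Int.natCast_nonneg _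
  omega

theorem csp_onC {K : Type} [Field K] {a b c x y : K} (h : (E a b c).toAffine.Nonsingular x y) :
    OnC a b c x y := by
  have h1 := (WeierstrassCurve.Affine.equation_iff x y).1 h.1
  have h2 : y ^ 2 + 0 * x * y + 0 * y = x ^ 3 + a * x ^ 2 + b * x + c := h1
  show y ^ 2 = x ^ 3 + a * x ^ 2 + b * x + c
  linear_combination h2

theorem csp_two {F : Type} [Field F] (h2 : (2 : F) ≠ 0) : (2 : RatFunc F) ≠ 0 := by
  have h3 : (2 : RatFunc F) = algebraMap F (RatFunc F) 2 := by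
    rw [map_ofNat]
  rw [h3]
  intro h
  exact h2 ((algebraMap F (RatFunc F)).injective (by rw [h, map_zero]))

/-- CSP -/
theorem csp_thm (hFLX : FLXStmt) (hSNG : SNGStmt) : CSPStmt := by
  intro F _ _ h2 n α β f hsep x y h hT c hc g hg
  have h2K := csp_two h2
  have : Infinite (RatFunc F) :=
    Infinite.of_injective (algebraMap F[X] (RatFunc F)) (RatFunc.algebraMap_injective F)
  have hdet : g.det ≠ 0 := hg.1.ne_zero
  have hinv : g * g⁻¹ = 1 := Matrix.mul_nonsing_inv g hg.1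
  have hinv' : g⁻¹ * g = 1 := Matrix.nonsing_inv_mul g hg.1
  have hz : ∀ i, (n : ℤ) + ∑ s, dv α β (tr i s) - ∑ j, dv α β j < 0 → mp c i = 0 := by
    intro i hi
    show algebraMap F[X] (RatFunc F) (c i) = 0
    rw [csp_zero hc i hi, map_zero]
  have hsum : ∑ j, dv α β j = 2 * (α : ℤ) + β := by
    rw [Fin.sum_univ_three]
    simp [dv]
    ring
  have hA0 : g *ᵥ ![1, 0, 0] ≠ 0 := by
    intro h0
    have h3 : g⁻¹ *ᵥ (g *ᵥ ![1, 0, 0]) = ![(1 : RatFunc F), 0, 0] := by
      rw [Matrix.mulVec_mulVec, hinv', Matrix.one_mulVec]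
    rw [h0, Matrix.mulVec_zero] at h3
    have h4 := congrFun h3 0
    simp at h4
  constructor
  · by_contra hα
    push Not at hα
    have e0 : mp c 0 = 0 := by
      refine hz 0 ?_
      rw [hsum, Fin.sum_univ_three]
      simp [dv, tr]
      omega
    have e1 : mp c 1 = 0 := by
      refine hz 1 ?_
      rw [hsum, Fin.sum_univ_three]
      simp [dv, tr]
      omega
    have e2 : mp c 2 = 0 := by
      refine hz 2 ?_
      rw [hsum, Fin.sum_univ_three]
      simp [dv, tr]
      omega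
    have h3 : tev (FK f x y) (g *ᵥ ![1, 0, 0]) = 0 := by
      rw [hg.tev]
      simp [tev, e0]
    obtain ⟨w, hw⟩ := hSNG (RatFunc F) h2K _ _ _ hsep x y (csp_onC h) _ hA0 h3
    apply hw
    have h4 : w = g *ᵥ (g⁻¹ *ᵥ w) := by
      rw [Matrix.mulVec_mulVec, hinv, Matrix.one_mulVec]
    have h5 : tder (FK f x y) (g *ᵥ ![1, 0, 0]) w = 0 := by
      rw [h4, hg.tder]
      simp [tder, e0, e1, e2]
    exact h5
  · by_contra hβ
    push Not at hβ
    have e0 : mp c 0 = 0 := by
      refine hz 0 ?_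
      rw [hsum, Fin.sum_univ_three]
      simp [dv, tr]
      omega
    have e1 : mp c 1 = 0 := by
      refine hz 1 ?_
      rw [hsum, Fin.sum_univ_three]
      simp [dv, tr]
      omega
    have e3 : mp c 3 = 0 := by
      refine hz 3 ?_
      rw [hsum, Fin.sum_univ_three]
      simp [dv, tr]
      omega
    refine hT (hFLX (RatFunc F) h2K _ _ _ hsep x y h (g *ᵥ ![1, 0, 0]) (g *ᵥ ![0, 1, 0])
      (g.det * mp c 6) hA0 ?_ ?_)
    · intro r hr
      have h3 : g⁻¹ *ᵥ (g *ᵥ ![0, 1, 0]) = ![(0 : RatFunc F), 1, 0] := by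
        rw [Matrix.mulVec_mulVec, hinv', Matrix.one_mulVec]
      have h4 : g⁻¹ *ᵥ (g *ᵥ ![1, 0, 0]) = ![(1 : RatFunc F), 0, 0] := by
        rw [Matrix.mulVec_mulVec, hinv', Matrix.one_mulVec]
      rw [hr, Matrix.mulVec_smul, h4] at h3
      have h5 := congrFun h3 1
      simp at h5
    · intro s t
      have h3 : s • (g *ᵥ ![1, 0, 0]) + t • (g *ᵥ ![0, 1, 0]) = g *ᵥ ![s, t, 0] := by
        funext i
        simp only [Pi.add_apply, Pi.smul_apply, smul_eq_mul, mulVec3, Matrix.cons_val]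
        ring
      show tev (FK f x y) _ = _
      rw [h3, hg.tev]
      simp [tev, e0, e1, e3]
      ring

end Pool.Agent.H11.AV3
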