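import Pool.Agent.H8.AV3.Stmts

/-! # Three-descent over `F(t)`: module FLX -/

set_option autoImplicit false

namespace Pool.Agent.H11.AV3

open Polynomial Matrix Pool.AVR Pool.AV3

/-- FLX -/
theorem flx_thm (hONT : ONTStmt) (hTRS : TRSStmt) (hNFX : NFXStmt) : FLXStmt := by
  intro K _ _ _ h2 a b c hsep x y h A B κ hA hB hflex
  by_contra hT
  push Not at hT
  have hA0 : tev (FP a b x y) A = 0 := by
    have h3 := hflex 1 0
    rw [one_smul, zero_smul, add_zero] at h3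
    rw [h3]
    ring
  obtain ⟨T, s₀, hs₀, hAT⟩ := (hONT K h2 a b c hsep x y h).2 A hA hA0
  obtain ⟨x', y', h', g, -, hg, s₁, hs₁, hgT⟩ := hTRS K h2 a b c hsep x y h T (hT T)
  have hdet : g.det ≠ 0 := hg.1.ne_zero
  have hinv : g * g⁻¹ = 1 := Matrix.mul_nonsing_inv g hg.1
  have hge : g *ᵥ e1 = (s₁ / s₀) • A := by
    rw [hgT, hAT, smul_smul, div_mul_cancel₀ _ hs₀]
  have hgv : g *ᵥ (g⁻¹ *ᵥ B) = B := by
    rw [Matrix.mulVec_mulVec, hinv, Matrix.one_mulVec]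
  obtain ⟨h0, h2'⟩ := hNFX K a b x' y' (κ / g.det) (g⁻¹ *ᵥ B) (by
    intro s t
    have h3 := hg.tev (s • (e1 : Fin 3 → K) + t • (g⁻¹ *ᵥ B))
    rw [Matrix.mulVec_add, Matrix.mulVec_smul, Matrix.mulVec_smul, hge, hgv, smul_smul,
      hflex] at h3
    field_simp
    linear_combination -h3)
  refine hB ((g⁻¹ *ᵥ B) 1 * (s₁ / s₀)) ?_
  have h4 : g⁻¹ *ᵥ B = (g⁻¹ *ᵥ B) 1 • (e1 : Fin 3 → K) := by
    funext i
    fin_cases i
    · simpa [e1] using h0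
    · simp [e1]
    · simpa [e1] using h2'
  rw [← smul_smul, ← hge, ← Matrix.mulVec_smul, ← h4, hgv]

end Pool.Agent.H11.AV3
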